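import Pool.Agent.TH289.L.P3

set_option autoImplicit false

open scoped Manifold ContDiff Topology
open Set Filter

namespace Pool.Agent.Results.MP_5c499f_an.ExpansiveFactor

open Pool.Agent.H721R2 Pool.Agent.H789R2.AN Pool.Agent.TH289 Pool.Agent.TH289.K Pool.Agent.TH289.L

/-- **Expansive factors of Anosov diffeomorphisms with global product structure.**
Let `f` be a `C¹` Anosov diffeomorphism of a closed connected manifold `M` with global product
structure (`GPS`: each stable path and each unstable path with the same initial point span a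
rectangle; for instance a hyperbolic automorphism of an infranilmanifold).  Let `g` be an expansive
homeomorphism of a compact metrizable space `Y` and `h : M → Y` a continuous map with
`h ∘ f = g ∘ h` such that, for ONE periodic point `p` of `f`, only finitely many points of the fibre
`h⁻¹(h p)` are forward asymptotic to `p`, or only finitely many are backward asymptotic to `p` (for
instance the fibre is finite).

Then `h` is locally injective, and if `Y` is a connected manifold of dimension at most `dim M`, then
`h` is a finite covering map of `M` onto `Y`, and `g` is topologically transitive and has global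
product structure. -/
theorem result (E : Type*) [NormedAddCommGroup E] [NormedSpace ℝ E] [FiniteDimensional ℝ E]
    (M : Type*) [TopologicalSpace M] [T2Space M] [CompactSpace M] [ConnectedSpace M]
    [ChartedSpace E M] [IsManifold 𝓘(ℝ, E) ∞ M] (f : Diffeomorph 𝓘(ℝ, E) 𝓘(ℝ, E) M M 1)
    (Es Eu : ∀ x : M, Submodule ℝ (TangentSpace 𝓘(ℝ, E) x)) (hf : IsAnosov f Es Eu)
    (hG : GPS f.toHomeomorph)
    (Y : Type*) [TopologicalSpace Y] [CompactSpace Y] [TopologicalSpace.MetrizableSpace Y]
    (g : Y ≃ₜ Y) (hg : Expansive g) (h : C(M, Y)) (hfg : ∀ x, h (f x) = g (h x))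
    (p : M) (hp : p ∈ Function.periodicPts f)
    (hfin : (h ⁻¹' {h p} ∩ {y | Asym f p y}).Finite ∨
      (h ⁻¹' {h p} ∩ {y | Asym f.symm p y}).Finite) :
    (∀ x, ∃ U ∈ 𝓝 x, InjOn h U) ∧
    ∀ (E' : Type*) [NormedAddCommGroup E'] [NormedSpace ℝ E'] [FiniteDimensional ℝ E']
      [ConnectedSpace Y] [ChartedSpace E' Y], Module.finrank ℝ E' ≤ Module.finrank ℝ E →
      IsCoveringMap h ∧ Function.Surjective h ∧ (∀ y, (h ⁻¹' {y}).Finite) ∧
        TopTransitive g ∧ GPS g := by
  refine ⟨man_exp_one f Es Eu hf hG g hg h h.continuous hfg hp hfin, ?_⟩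
  intro E' _ _ _ _ _ hdim
  obtain ⟨k1, k2, k3, k4, k5⟩ :=
    man_exp_one_cover f Es Eu hf hG g hg h h.continuous hfg hp hfin hdim
  exact ⟨k1, k2, k3, k5, k4⟩

end Pool.Agent.Results.MP_5c499f_an.ExpansiveFactor
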