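import Pool.Agent.TH289.L.P3

set_option autoImplicit false

open scoped Manifold ContDiff Topology
open Set Filter

namespace Pool.Agent.Results.MP_5c499f_an.FiniteExtension

open Pool.Agent.H721R2 Pool.Agent.H789R2.AN Pool.Agent.TH289 Pool.Agent.TH289.K Pool.Agent.TH289.L

/-- **Extensions of Anosov diffeomorphisms with global product structure.**
Let `g` be a `C¹` Anosov diffeomorphism of a closed connected manifold `M'` with global product
structure (`GPS`: each stable path and each unstable path with the same initial point span a
rectangle; for instance a hyperbolic automorphism of an infranilmanifold).  Let `f` be a `C¹` Anosov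
diffeomorphism of a closed connected manifold `M` with `dim M' ≤ dim M`, and let `h : M → M'` be
continuous with `h ∘ f = g ∘ h` such that
* `h` collapses no nontrivial continuum of a stable leaf (`Light f h`), or no nontrivial continuum
  of an unstable leaf (`Light f.symm h`), and
* for ONE periodic point `p` of `f`, only finitely many points of the fibre `h⁻¹(h p)` are forward
  asymptotic to `p`, or only finitely many are backward asymptotic to `p`
(for instance `h` has finite fibres, or `h` is injective on the local unstable sets).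

Then `h` is a finite covering map of `M` onto `M'` (so that `f` is a lift of `g` to this finite
cover; it is an automorphism of an infranilmanifold up to topological conjugacy if `g` is), and `f`
has global product structure. -/
theorem result (E : Type*) [NormedAddCommGroup E] [NormedSpace ℝ E] [FiniteDimensional ℝ E]
    (M : Type*) [TopologicalSpace M] [T2Space M] [CompactSpace M] [ConnectedSpace M]
    [ChartedSpace E M] [IsManifold 𝓘(ℝ, E) ∞ M] (f : Diffeomorph 𝓘(ℝ, E) 𝓘(ℝ, E) M M 1)
    (Es Eu : ∀ x : M, Submodule ℝ (TangentSpace 𝓘(ℝ, E) x)) (hf : IsAnosov f Es Eu)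
    (E' : Type*) [NormedAddCommGroup E'] [NormedSpace ℝ E'] [FiniteDimensional ℝ E']
    (M' : Type*) [TopologicalSpace M'] [T2Space M'] [CompactSpace M'] [ConnectedSpace M']
    [ChartedSpace E' M'] [IsManifold 𝓘(ℝ, E') ∞ M'] (g : Diffeomorph 𝓘(ℝ, E') 𝓘(ℝ, E') M' M' 1)
    (Es' Eu' : ∀ x : M', Submodule ℝ (TangentSpace 𝓘(ℝ, E') x)) (hg : IsAnosov g Es' Eu')
    (hG : GPS g.toHomeomorph) (hdim : Module.finrank ℝ E' ≤ Module.finrank ℝ E)
    (h : C(M, M')) (hfg : ∀ x, h (f x) = g (h x))
    (hL : Light f.toHomeomorph h ∨ Light f.toHomeomorph.symm h)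
    (p : M) (hp : p ∈ Function.periodicPts f)
    (hfin : (h ⁻¹' {h p} ∩ {y | Asym f p y}).Finite ∨
      (h ⁻¹' {h p} ∩ {y | Asym f.symm p y}).Finite) :
    IsCoveringMap h ∧ Function.Surjective h ∧ (∀ y, (h ⁻¹' {y}).Finite) ∧
      GPS f.toHomeomorph :=
  man_finite_ext f Es Eu hf g Es' Eu' hg h h.continuous hfg hL hG hp hfin hdim

end Pool.Agent.Results.MP_5c499f_an.FiniteExtension
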