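import Pool.Agent.TH289.L.P4

set_option autoImplicit false

open scoped Manifold ContDiff Topology
open Set Filter

namespace Pool.Agent.Results.MP_5c499f_an.OpenExtension

open Pool.Agent.H721R2 Pool.Agent.H789R2.AN Pool.Agent.TH289.K Pool.Agent.TH289.L

/-- **Open extensions of transitive expansive homeomorphisms by Anosov diffeomorphisms.**
Let `f` be a `C¹` Anosov diffeomorphism of a closed connected manifold `M`, let `g` be an expansive,
topologically transitive homeomorphism of a compact metrizable space `Y` (for instance a transitive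
Anosov diffeomorphism), and let `h : M → Y` be a continuous open map with `h ∘ f = g ∘ h`.  Suppose
that ONE fibre `h⁻¹(y₀)`, over a point `y₀` with dense (two-sided) orbit under `g`, is finite.

Then `f` is topologically transitive, and `h` is a finite covering map of `M` onto `Y` (so `Y` is a
manifold and all fibres are finite).  No relation between dimensions and no global product structure
is assumed. -/
theorem result (E : Type*) [NormedAddCommGroup E] [NormedSpace ℝ E] [FiniteDimensional ℝ E]
    (M : Type*) [TopologicalSpace M] [T2Space M] [CompactSpace M] [ConnectedSpace M]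
    [ChartedSpace E M] [IsManifold 𝓘(ℝ, E) ∞ M] (f : Diffeomorph 𝓘(ℝ, E) 𝓘(ℝ, E) M M 1)
    (Es Eu : ∀ x : M, Submodule ℝ (TangentSpace 𝓘(ℝ, E) x)) (hf : IsAnosov f Es Eu)
    (Y : Type*) [TopologicalSpace Y] [CompactSpace Y] [TopologicalSpace.MetrizableSpace Y]
    (g : Y ≃ₜ Y) (hg : Expansive g) (ht : TopTransitive g)
    (h : C(M, Y)) (hopen : IsOpenMap h) (hfg : ∀ x, h (f x) = g (h x))
    (y₀ : Y) (hy₀ : (h ⁻¹' {y₀}).Finite)
    (hdense : Dense {z | ∃ n : ℕ, g^[n] y₀ = z ∨ g^[n] z = y₀}) :
    TopTransitive f ∧ IsCoveringMap h ∧ Function.Surjective h ∧ ∀ y, (h ⁻¹' {y}).Finite :=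
  man_open f Es Eu hf g hg ht h h.continuous hopen hfg hy₀ hdense

end Pool.Agent.Results.MP_5c499f_an.OpenExtension
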