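import Pool.Agent.TH289.HomMain

set_option autoImplicit false

open scoped Manifold ContDiff Topology
open Set Filter

namespace Pool.Agent.Results.MP_5c499f_an.SeparatingFactorIff

open Pool.Agent.H721R2 Pool.Agent.H789R2.AN Pool.Agent.TH289

/-- **A semiconjugacy between Anosov diffeomorphisms is a conjugacy if and only if it separates
homoclinically related periodic points.**
Let `f` be a `C¹` Anosov diffeomorphism of a closed connected manifold `M` (with stable and unstable
bundles of constant ranks `s`, `u`), let `g` be a topologically transitive `C¹` Anosov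
diffeomorphism of a closed manifold `M'` (for instance a hyperbolic infranilmanifold automorphism)
with `dim M' ≤ dim M`, and let `h : M → M'` be a continuous map with `h ∘ f = g ∘ h`.  Then `h` is a
homeomorphism (so `f` is topologically conjugate to `g`) if and only if `h p ≠ h q` for every two
different periodic points `p`, `q` of `f` that are homoclinically related (the unstable set of the
orbit of `p` meets the stable set of `q`, and vice versa).  Nothing else is assumed: no
transitivity of `f`, no surjectivity of `h`, and no relation between the ranks of the bundles of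
`f` and `g`. -/
theorem result (E : Type*) [NormedAddCommGroup E] [NormedSpace ℝ E] [FiniteDimensional ℝ E]
    (M : Type*) [TopologicalSpace M] [T2Space M] [CompactSpace M] [ConnectedSpace M]
    [ChartedSpace E M] [IsManifold 𝓘(ℝ, E) ∞ M] (f : Diffeomorph 𝓘(ℝ, E) 𝓘(ℝ, E) M M 1)
    (Es Eu : ∀ x : M, Submodule ℝ (TangentSpace 𝓘(ℝ, E) x)) (hf : IsAnosov f Es Eu)
    (s u : ℕ) (hs : ∀ x, Module.finrank ℝ (Es x) = s) (hu : ∀ x, Module.finrank ℝ (Eu x) = u)
    (E' : Type*) [NormedAddCommGroup E'] [NormedSpace ℝ E'] [FiniteDimensional ℝ E']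
    (M' : Type*) [TopologicalSpace M'] [T2Space M'] [CompactSpace M']
    [ChartedSpace E' M'] [IsManifold 𝓘(ℝ, E') ∞ M'] (g : Diffeomorph 𝓘(ℝ, E') 𝓘(ℝ, E') M' M' 1)
    (Es' Eu' : ∀ x : M', Submodule ℝ (TangentSpace 𝓘(ℝ, E') x)) (hg : IsAnosov g Es' Eu')
    (s' u' : ℕ) (hs' : ∀ x, Module.finrank ℝ (Es' x) = s')
    (hu' : ∀ x, Module.finrank ℝ (Eu' x) = u') (hgt : TopTransitive g)
    (hdim : Module.finrank ℝ E' ≤ Module.finrank ℝ E)
    (h : C(M, M')) (hfg : ∀ x, h (f x) = g (h x)) :
    IsHomeomorph h ↔ Separates f.toHomeomorph h univ := by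
  constructor
  · intro hh p _ q _ _ _ _ hpq
    exact hh.injective hpq
  · intro hsep
    have hn : (univ : Set M).Nonempty := univ_nonempty
    exact (man_main f Es Eu hf hs hu g Es' Eu' hg hs' hu' hgt hdim h h.continuous hfg univ
      ⟨isClosed_univ, hn, fun _ => by simp, fun _ _ _ _ => mem_univ _⟩ hsep
      (Or.inr ⟨univ, ⟨isClosed_univ, hn, fun _ => by simp, fun _ _ _ _ => mem_univ _⟩,
        hsep⟩)).2.1

end Pool.Agent.Results.MP_5c499f_an.SeparatingFactorIff
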